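import Pool.Agent.Y922.AP.Stm
import Pool.Agent.W45.WP.Dig
import Pool.Agent.Helper242.RK.Log

/-!
# The logarithm of Riemann's xi function in a right half-plane (job AP-LOG)
-/

set_option autoImplicit false

open Filter Topology Set Complex

namespace Pool.Agent.Y688.AP

/-- the real part of the digamma function tends to infinity with the real part -/
theorem psi_big (M : ℝ) : ∃ σ : ℝ, 1 ≤ σ ∧ ∀ z : ℂ, σ < z.re → M ≤ (logDeriv Gamma z).re := by
  obtain ⟨N, hN⟩ := ((tendsto_atTop.1 Real.tendsto_sum_range_one_div_nat_succ_atTop)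
    (M + Real.eulerMascheroniConstant + 2)).exists
  refine ⟨N + 1, by have : (0 : ℝ) ≤ N := Nat.cast_nonneg N; linarith, fun z hz => ?_⟩
  have hN0 : (0 : ℝ) ≤ N := Nat.cast_nonneg N
  have hz0 : 0 < z.re := by linarith
  have hterm : ∀ n : ℕ, 1 / ((n : ℝ) + 1) - 1 / (z.re + (n + 1)) ≤ (W45.WP.dg n z).re := by
    intro n
    have hn : (0 : ℝ) ≤ n := Nat.cast_nonneg n
    have e : (W45.WP.dg n z).re = 1 / ((n : ℝ) + 1) - (1 / (z + (n + 1))).re := by
      unfold W45.WP.dg
      rw [sub_re]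
      congr 1
      have : (1 : ℂ) / ((n : ℂ) + 1) = ((1 / ((n : ℝ) + 1) : ℝ) : ℂ) := by push_cast; rfl
      rw [this, ofReal_re]
    rw [e]
    have h1 : (1 / (z + (n + 1))).re ≤ 1 / (z.re + (n + 1)) := by
      have h2 := re_le_norm (1 / (z + (n + 1)))
      refine h2.trans ?_
      rw [norm_div, norm_one]
      apply one_div_le_one_div_of_le (by positivity)
      have h3 := re_le_norm (z + ((n : ℂ) + 1))
      simpa using h3
    linarith
  have hnn : ∀ n : ℕ, 0 ≤ (W45.WP.dg n z).re := by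
    intro n
    have hn : (0 : ℝ) ≤ n := Nat.cast_nonneg n
    refine le_trans ?_ (hterm n)
    rw [sub_nonneg]
    apply one_div_le_one_div_of_le (by positivity)
    linarith
  have hs := W45.WP.summable_dg hz0
  rw [W45.WP.logDeriv_Gamma_eq hz0, add_re, sub_re, neg_re, ofReal_re, re_tsum hs]
  have h1 : (1 / z).re ≤ 1 := by
    refine (re_le_norm _).trans ?_
    rw [norm_div, norm_one]
    rw [div_le_one (by exact lt_of_lt_of_le hz0 (re_le_norm z))]
    have := re_le_norm z
    linarith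
  have h2 : ∑ n ∈ Finset.range N, (W45.WP.dg n z).re ≤ ∑' n, (W45.WP.dg n z).re :=
    Summable.sum_le_tsum _ (fun n _ => hnn n) (hasSum_re hs.hasSum).summable
  have h3 : ∑ n ∈ Finset.range N, (1 / ((n : ℝ) + 1) - 1 / (N + 1)) ≤
      ∑ n ∈ Finset.range N, (W45.WP.dg n z).re := by
    apply Finset.sum_le_sum
    intro n _
    have hn : (0 : ℝ) ≤ n := Nat.cast_nonneg n
    refine le_trans ?_ (hterm n)
    apply sub_le_sub_left
    apply one_div_le_one_div_of_le (by positivity)
    linarith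
  rw [Finset.sum_sub_distrib, Finset.sum_const, Finset.card_range, nsmul_eq_mul] at h3
  have h4 : (N : ℝ) * (1 / (N + 1)) ≤ 1 := by
    rw [mul_one_div, div_le_one (by positivity)]
    linarith
  linarith

/-- the logarithmic derivative of zeta is bounded on the half-plane -/
theorem zeta_bd : ∃ C : ℝ, 0 ≤ C ∧ ∀ s : ℂ, 2 ≤ s.re →
    ‖deriv riemannZeta s / riemannZeta s‖ ≤ C := by
  refine ⟨∑' n, ‖LSeries.term (fun n => ((ArithmeticFunction.vonMangoldt n : ℝ) : ℂ)) 2 n‖,
    tsum_nonneg fun _ => norm_nonneg _, fun s hs => ?_⟩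
  have hs1 : 1 < s.re := by linarith
  have h1 := ArithmeticFunction.LSeries_vonMangoldt_eq_deriv_riemannZeta_div hs1
  have h2 : LSeriesSummable (fun n => ((ArithmeticFunction.vonMangoldt n : ℝ) : ℂ)) 2 :=
    ArithmeticFunction.LSeriesSummable_vonMangoldt (by norm_num)
  have h3 : LSeriesSummable (fun n => ((ArithmeticFunction.vonMangoldt n : ℝ) : ℂ)) s :=
    ArithmeticFunction.LSeriesSummable_vonMangoldt hs1
  have e : ‖deriv riemannZeta s / riemannZeta s‖ =
      ‖LSeries (fun n => ((ArithmeticFunction.vonMangoldt n : ℝ) : ℂ)) s‖ := by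
    rw [h1, neg_div, norm_neg]
  rw [e]
  unfold LSeries
  refine (norm_tsum_le_tsum_norm h3.norm).trans ?_
  refine Summable.tsum_le_tsum (fun n => ?_) h3.norm h2.norm
  exact LSeries.norm_term_le_of_re_le_re _ (by simpa using hs) n

/-- products of functions with given logarithmic derivatives -/
theorem ld_mul {f g : ℂ → ℂ} {s a b : ℂ} (hf : HasDerivAt f (f s * a) s)
    (hg : HasDerivAt g (g s * b) s) :
    HasDerivAt (fun z => f z * g z) (f s * g s * (a + b)) s := by
  have h := hf.mul hg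
  refine h.congr_deriv ?_
  ring

/-- xi in terms of zeta -/
theorem xi_eq {s : ℂ} (hs : 1 < s.re) : Y922.AP.xi s =
    (1 / 2 : ℂ) * (s * (s - 1) * ((Real.pi : ℂ) ^ (-s / 2) * Gamma (s / 2) * riemannZeta s)) := by
  have h0 : s ≠ 0 := by rintro rfl; simp at hs; linarith
  have h1 : s - 1 ≠ 0 := by
    intro h
    have : s = 1 := sub_eq_zero.1 h
    rw [this] at hs
    simp at hs
  have h1' : 1 - s ≠ 0 := by
    intro h
    apply h1
    linear_combination -h
  have hG : Gammaℝ s ≠ 0 := Gammaℝ_ne_zero_of_re_pos (by linarith)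
  have e1 : (Real.pi : ℂ) ^ (-s / 2) * Gamma (s / 2) * riemannZeta s =
      completedRiemannZeta s := by
    rw [riemannZeta_def_of_ne_zero h0, ← Gammaℝ_def]
    field_simp
  rw [e1, completedRiemannZeta_eq]
  unfold Y922.AP.xi
  field_simp
  ring

theorem t_LOG : Y922.AP.S_LOG := by
  obtain ⟨C, hC0, hC⟩ := zeta_bd
  obtain ⟨σ, hσ1, hσ⟩ := psi_big (2 * (3 + |Real.log Real.pi| / 2 + C))
  have hU : Convex ℝ {s : ℂ | 2 * σ < s.re} := convex_halfSpace_re_gt _
  have hUo : IsOpen {s : ℂ | 2 * σ < s.re} := isOpen_lt continuous_const continuous_re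
  have hxd : Differentiable ℂ Y922.AP.xi := by
    unfold Y922.AP.xi
    exact (((differentiable_id.mul (differentiable_id.sub_const 1)).mul
      differentiable_completedZeta₀).add_const 1).div_const 2
  have hne : ∀ s ∈ {s : ℂ | 2 * σ < s.re}, Y922.AP.xi s ≠ 0 := by
    intro s hs
    have hs' : 2 * σ < s.re := hs
    have hs1 : 1 < s.re := by linarith
    rw [xi_eq hs1]
    have h0 : s ≠ 0 := by rintro rfl; simp at hs1; linarith
    have h1 : s - 1 ≠ 0 := by
      intro h
      have : s = 1 := sub_eq_zero.1 h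
      rw [this] at hs1
      simp at hs1
    have hpi : (Real.pi : ℂ) ^ (-s / 2) ≠ 0 := by
      rw [Ne, cpow_eq_zero_iff]
      rintro ⟨h, _⟩
      exact Real.pi_ne_zero (by exact_mod_cast h)
    have hG : Gamma (s / 2) ≠ 0 := by
      apply Gamma_ne_zero_of_re_pos
      rw [show (s / 2).re = s.re / 2 by simp]
      linarith
    have hz : riemannZeta s ≠ 0 := riemannZeta_ne_zero_of_one_lt_re hs1
    have : (1 / 2 : ℂ) ≠ 0 := by norm_num
    exact mul_ne_zero this (mul_ne_zero (mul_ne_zero h0 h1) (mul_ne_zero (mul_ne_zero hpi hG) hz))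
  obtain ⟨L, hLd, hL⟩ := Helper242.RK.exists_log hU hUo ⟨((2 * σ + 1 : ℝ) : ℂ), by
    show 2 * σ < (((2 * σ + 1 : ℝ) : ℂ)).re
    rw [ofReal_re]; linarith⟩ hxd.differentiableOn hne
  refine ⟨2 * σ, L, by linarith, fun s hs => ?_⟩
  have hsU : s ∈ {s : ℂ | 2 * σ < s.re} := hs
  have hnhds : {s : ℂ | 2 * σ < s.re} ∈ 𝓝 s := hUo.mem_nhds hsU
  have hLa : AnalyticAt ℂ L s := hLd.analyticAt hnhds
  refine ⟨hLa, hL s hsU, ?_⟩
  have hs2 : 2 ≤ s.re := by linarith
  have hs1 : 1 < s.re := by linarith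
  have h0 : s ≠ 0 := by rintro rfl; simp at hs1; linarith
  have h1 : s - 1 ≠ 0 := by
    intro h
    have : s = 1 := sub_eq_zero.1 h
    rw [this] at hs1
    simp at hs1
  have hpi0 : (Real.pi : ℂ) ≠ 0 := by exact_mod_cast Real.pi_ne_zero
  have hre2 : (s / 2).re = s.re / 2 := by simp
  have hG : Gamma (s / 2) ≠ 0 := by
    apply Gamma_ne_zero_of_re_pos
    rw [hre2]
    linarith
  have hz : riemannZeta s ≠ 0 := riemannZeta_ne_zero_of_one_lt_re hs1
  have hs1' : s ≠ 1 := by
    intro h
    exact h1 (sub_eq_zero.2 h)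
  -- the factors
  have d1 : HasDerivAt (fun z : ℂ => z) (s * (1 / s)) s := by
    refine (hasDerivAt_id s).congr_deriv ?_
    field_simp
  have d2 : HasDerivAt (fun z : ℂ => z - 1) ((s - 1) * (1 / (s - 1))) s := by
    refine ((hasDerivAt_id s).sub_const 1).congr_deriv ?_
    field_simp
  have d3 : HasDerivAt (fun z : ℂ => (Real.pi : ℂ) ^ (-z / 2))
      ((Real.pi : ℂ) ^ (-s / 2) * (-(Complex.log Real.pi) / 2)) s := by
    have h := (((hasDerivAt_id s).neg.div_const 2).const_cpow (c := (Real.pi : ℂ)) (Or.inl hpi0))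
    refine h.congr_deriv ?_
    show (Real.pi : ℂ) ^ (-s / 2) * Complex.log Real.pi * (-1 / 2) = _
    ring
  have d4 : HasDerivAt (fun z : ℂ => Gamma (z / 2))
      (Gamma (s / 2) * (logDeriv Gamma (s / 2) / 2)) s := by
    have hGd : DifferentiableAt ℂ Gamma (s / 2) := by
      apply differentiableAt_Gamma
      intro m h
      have h2 := congrArg re h
      rw [hre2, neg_re, natCast_re] at h2
      have : (0 : ℝ) ≤ m := Nat.cast_nonneg m
      linarith
    have h := HasDerivAt.comp s hGd.hasDerivAt ((hasDerivAt_id s).div_const 2)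
    refine h.congr_deriv ?_
    rw [logDeriv_apply]
    field_simp
  have d5 : HasDerivAt riemannZeta (riemannZeta s * (deriv riemannZeta s / riemannZeta s)) s := by
    refine (differentiableAt_riemannZeta hs1').hasDerivAt.congr_deriv ?_
    field_simp
  have d6 := ld_mul (ld_mul d1 d2) (ld_mul (ld_mul d3 d4) d5)
  have d7 := d6.const_mul (1 / 2 : ℂ)
  have hev : Y922.AP.xi =ᶠ[𝓝 s] fun z => (1 / 2 : ℂ) *
      (z * (z - 1) * ((Real.pi : ℂ) ^ (-z / 2) * Gamma (z / 2) * riemannZeta z)) := by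
    filter_upwards [hnhds] with z hz
    have hz' : 2 * σ < z.re := hz
    exact xi_eq (by linarith)
  have d8 := d7.congr_of_eventuallyEq hev
  have hev2 : (fun z => cexp (L z)) =ᶠ[𝓝 s] Y922.AP.xi := by
    filter_upwards [hnhds] with z hz
    exact hL z hz
  have d9 : HasDerivAt (fun z => cexp (L z)) (cexp (L s) * deriv L s) s :=
    hLa.differentiableAt.hasDerivAt.cexp
  have d10 := d8.congr_of_eventuallyEq hev2
  have key := d9.unique d10
  have hxs := hne s hsU
  rw [hL s hsU] at key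
  have key2 : deriv L s = 1 / s + 1 / (s - 1) + (-(Complex.log Real.pi) / 2 +
      logDeriv Gamma (s / 2) / 2 + deriv riemannZeta s / riemannZeta s) := by
    have : Y922.AP.xi s * deriv L s = Y922.AP.xi s * (1 / s + 1 / (s - 1) +
        (-(Complex.log Real.pi) / 2 + logDeriv Gamma (s / 2) / 2 +
          deriv riemannZeta s / riemannZeta s)) := by
      rw [key]
      rw [xi_eq hs1]
      ring
    exact mul_left_cancel₀ hxs this
  rw [key2]
  have hσs : σ < (s / 2).re := by rw [hre2]; linarith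
  have r1 := hσ (s / 2) hσs
  have r2 := hC s hs2
  have r3 : -1 ≤ (1 / s).re := by
    have h2 := abs_re_le_norm (1 / s)
    rw [norm_div, norm_one] at h2
    have h3 : (1 : ℝ) / ‖s‖ ≤ 1 := by
      rw [div_le_one (by have := re_le_norm s; linarith)]
      have := re_le_norm s; linarith
    have := (abs_le.1 (h2.trans h3)).1
    exact this
  have r4 : -1 ≤ (1 / (s - 1)).re := by
    have h2 := abs_re_le_norm (1 / (s - 1))
    rw [norm_div, norm_one] at h2
    have h4 : (s - 1).re = s.re - 1 := by simp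
    have h5 := re_le_norm (s - 1)
    rw [h4] at h5
    have h3 : (1 : ℝ) / ‖s - 1‖ ≤ 1 := by
      rw [div_le_one (by linarith)]
      linarith
    exact (abs_le.1 (h2.trans h3)).1
  have r5 : (-(Complex.log Real.pi) / 2).re = -(Real.log Real.pi) / 2 := by
    rw [← ofReal_log Real.pi_pos.le]
    rw [show (-((Real.log Real.pi : ℝ) : ℂ) / 2) = ((-(Real.log Real.pi) / 2 : ℝ) : ℂ) by push_cast; rfl,
      ofReal_re]
  have r6 : (logDeriv Gamma (s / 2) / 2).re = (logDeriv Gamma (s / 2)).re / 2 := by simp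
  have r7 : -C ≤ (deriv riemannZeta s / riemannZeta s).re :=
    (abs_le.1 ((abs_re_le_norm _).trans r2)).1
  have r8 := le_abs_self (Real.log Real.pi)
  simp only [add_re, r5, r6]
  linarith

end Pool.Agent.Y688.AP
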